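import Pool.Agent.H61.PB.POI0
import Pool.Agent.H78.PB.Stm2

/-!
Project PB, stubs KRN and POI.
-/

set_option autoImplicit false

open MeasureTheory Filter Topology Complex

namespace Pool.Agent.H61.PB

open Pool.Agent.H78.PB

lemma p1_eq (θ : ℝ) : p1 θ = kk (Real.sin (Real.pi * θ)) (Real.cos (Real.pi * θ)) := rfl

lemma p0_eq (θ : ℝ) : p0 θ = kk (Real.sin (Real.pi * θ)) (-Real.cos (Real.pi * θ)) := by
  funext y
  rw [p0, kk, sub_eq_add_neg]

lemma cos_abs {θ : ℝ} (h0 : 0 < θ) (h1 : θ < 1) : |Real.cos (Real.pi * θ)| < 1 := by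
  have hs := sin_ne h0 h1
  have h2 := Real.sin_sq_add_cos_sq (Real.pi * θ)
  rw [abs_lt]
  constructor <;> nlinarith

theorem t_KRN : P_KRN := by
  intro θ h0 h1
  have hpi := Real.pi_pos
  have hs := sin_ne h0 h1
  have hc := cos_abs h0 h1
  have hc' : |-Real.cos (Real.pi * θ)| < 1 := by rwa [abs_neg]
  refine ⟨fun k => ⟨?_, ?_⟩, ?_, ?_⟩
  · rw [p0_eq]
    exact kk_int hs.le hc' k
  · rw [p1_eq]
    exact kk_int hs.le hc k
  · rw [p0_eq]
    have h2 := kk_mass (x := Real.pi - Real.pi * θ) (by nlinarith) (by nlinarith)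
    rw [Real.sin_pi_sub, Real.cos_pi_sub] at h2
    rw [h2]
    field_simp
  · rw [p1_eq]
    have h2 := kk_mass (x := Real.pi * θ) (by positivity) (by nlinarith)
    rw [h2]
    field_simp

theorem t_POI : P_POI := by
  intro θ h0 h1 h k C hd hb
  rw [p0_eq, p1_eq]
  exact poi h0 h1 k C hd hb

end Pool.Agent.H61.PB
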