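import Mathlib

/-!
Project PB, stub KRN: integrability and masses of the kernels of Poisson for the strip.
-/

set_option autoImplicit false

open MeasureTheory Filter Topology

namespace Pool.Agent.H61.PB

/-- the kernel with parameters `s` and `c` -/
noncomputable def kk (s c y : ℝ) : ℝ := s / (2 * (Real.cosh (Real.pi * y) + c))

lemma kk_den {c : ℝ} (hc : -1 < c) (y : ℝ) : 0 < Real.cosh (Real.pi * y) + c := by
  have := Real.one_le_cosh (Real.pi * y)
  linarith

lemma kk_cont (s : ℝ) {c : ℝ} (hc : -1 < c) : Continuous (kk s c) := by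
  unfold kk
  refine Continuous.div continuous_const (by fun_prop) fun y => ?_
  have := kk_den hc y
  positivity

lemma kk_bound {s c : ℝ} (hs : 0 ≤ s) (hc : |c| < 1) (y : ℝ) :
    |kk s c y| ≤ s / (1 - |c|) * Real.exp (-(Real.pi * |y|)) := by
  have hc1 : -1 < c := by
    have := (abs_lt.1 hc).1
    linarith
  have h1 := Real.one_le_cosh (Real.pi * y)
  have h0 := kk_den hc1 y
  have hcc : 0 < 1 - |c| := by linarith
  have h2 : (1 - |c|) * Real.cosh (Real.pi * y) ≤ Real.cosh (Real.pi * y) + c := by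
    have h3 : -|c| ≤ c := neg_abs_le c
    have h4 : |c| ≤ |c| * Real.cosh (Real.pi * y) := le_mul_of_one_le_right (abs_nonneg c) h1
    nlinarith
  have h5 : Real.exp (Real.pi * |y|) ≤ 2 * Real.cosh (Real.pi * y) := by
    have h6 : Real.cosh (Real.pi * y) = Real.cosh (Real.pi * |y|) := by
      rcases abs_choice y with h | h
      · rw [h]
      · rw [h, mul_neg, Real.cosh_neg]
    rw [h6, Real.cosh_eq]
    have := Real.exp_pos (-(Real.pi * |y|))
    linarith
  rw [abs_of_nonneg (by unfold kk; positivity), kk, Real.exp_neg]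
  rw [div_mul_eq_mul_div, div_le_div_iff₀ (by positivity) hcc, mul_assoc]
  refine mul_le_mul_of_nonneg_left ?_ hs
  rw [inv_mul_eq_div, le_div_iff₀ (Real.exp_pos _)]
  nlinarith [Real.exp_pos (Real.pi * |y|)]

lemma pow_bound (k : ℕ) (y : ℝ) :
    (1 + |y|) ^ k * Real.exp (-(Real.pi * |y|)) ≤ (k + 2).factorial * Real.exp 1 * (1 + y ^ 2)⁻¹ := by
  have h1 := Real.pow_div_factorial_le_exp (1 + |y|) (by positivity) (k + 2)
  have hf : (0 : ℝ) < (k + 2).factorial := by exact_mod_cast Nat.factorial_pos _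
  rw [div_le_iff₀ hf] at h1
  have h2 : (1 + |y|) ^ k * (1 + y ^ 2) ≤ (1 + |y|) ^ (k + 2) := by
    rw [pow_add]
    refine mul_le_mul_of_nonneg_left ?_ (by positivity)
    nlinarith [abs_nonneg y, sq_abs y]
  have h3 : Real.exp (1 + |y|) = Real.exp 1 * Real.exp |y| := Real.exp_add _ _
  have h4 : Real.exp (-(Real.pi * |y|)) ≤ Real.exp (-|y|) := by
    apply Real.exp_le_exp.2
    have := Real.pi_gt_three
    nlinarith [abs_nonneg y]
  have h5 : Real.exp |y| * Real.exp (-|y|) = 1 := by rw [← Real.exp_add]; simp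
  rw [← div_eq_mul_inv, le_div_iff₀ (by positivity)]
  calc (1 + |y|) ^ k * Real.exp (-(Real.pi * |y|)) * (1 + y ^ 2)
      = (1 + |y|) ^ k * (1 + y ^ 2) * Real.exp (-(Real.pi * |y|)) := by ring
    _ ≤ (1 + |y|) ^ (k + 2) * Real.exp (-|y|) := by gcongr
    _ ≤ (Real.exp (1 + |y|) * (k + 2).factorial) * Real.exp (-|y|) := by gcongr
    _ = (k + 2).factorial * Real.exp 1 * (Real.exp |y| * Real.exp (-|y|)) := by rw [h3]; ring
    _ = _ := by rw [h5, mul_one]

lemma kk_int {s c : ℝ} (hs : 0 ≤ s) (hc : |c| < 1) (k : ℕ) :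
    Integrable (fun y : ℝ => kk s c y * (1 + |y|) ^ k) := by
  have hc1 : -1 < c := by
    have := (abs_lt.1 hc).1
    linarith
  have hcc : 0 < 1 - |c| := by linarith
  refine Integrable.mono' (g := fun y => s / (1 - |c|) * ((k + 2).factorial * Real.exp 1) * (1 + y ^ 2)⁻¹)
    (integrable_inv_one_add_sq.const_mul _) ?_ ?_
  · exact ((kk_cont s hc1).mul (by fun_prop)).aestronglyMeasurable
  · refine Eventually.of_forall fun y => ?_
    rw [Real.norm_eq_abs, abs_mul, abs_of_nonneg (by positivity : (0 : ℝ) ≤ (1 + |y|) ^ k)]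
    calc |kk s c y| * (1 + |y|) ^ k ≤ s / (1 - |c|) * Real.exp (-(Real.pi * |y|)) * (1 + |y|) ^ k :=
          mul_le_mul_of_nonneg_right (kk_bound hs hc y) (by positivity)
      _ = s / (1 - |c|) * ((1 + |y|) ^ k * Real.exp (-(Real.pi * |y|))) := by ring
      _ ≤ s / (1 - |c|) * ((k + 2).factorial * Real.exp 1 * (1 + y ^ 2)⁻¹) :=
          mul_le_mul_of_nonneg_left (pow_bound k y) (by positivity)
      _ = _ := by ring

lemma kk_int0 {s c : ℝ} (hs : 0 ≤ s) (hc : |c| < 1) : Integrable (kk s c) := by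
  simpa using kk_int hs hc 0

lemma kk_mass {x : ℝ} (hx0 : 0 < x) (hx1 : x < Real.pi) :
    ∫ y, kk (Real.sin x) (Real.cos x) y = x / Real.pi := by
  have hs : 0 < Real.sin x := Real.sin_pos_of_pos_of_lt_pi hx0 hx1
  have hpi := Real.pi_pos
  have hc : |Real.cos x| < 1 := by
    have h1 := Real.sin_sq_add_cos_sq x
    rw [abs_lt]
    constructor <;> nlinarith
  have hder : ∀ y, HasDerivAt (fun y => (1 / Real.pi) * Real.arctan ((Real.exp (Real.pi * y) + Real.cos x) / Real.sin x))
      (kk (Real.sin x) (Real.cos x) y) y := by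
    intro y
    have h1 : HasDerivAt (fun y : ℝ => Real.pi * y) Real.pi y := by
      simpa using (hasDerivAt_id y).const_mul Real.pi
    have h2 : HasDerivAt (fun y => (Real.exp (Real.pi * y) + Real.cos x) / Real.sin x)
        (Real.exp (Real.pi * y) * Real.pi / Real.sin x) y := ((h1.exp).add_const _).div_const _
    have h3 := (h2.arctan).const_mul (1 / Real.pi)
    refine h3.congr_deriv ?_
    symm
    have hE := Real.exp_pos (Real.pi * y)
    have hEn : Real.exp (-(Real.pi * y)) = (Real.exp (Real.pi * y))⁻¹ := Real.exp_neg _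
    set E := Real.exp (Real.pi * y) with hEdef
    have h4 := Real.sin_sq_add_cos_sq x
    have h5 : kk (Real.sin x) (Real.cos x) y = Real.sin x * E / (E ^ 2 + 2 * Real.cos x * E + 1) := by
      have h6 : 0 < E ^ 2 + 2 * Real.cos x * E + 1 := by nlinarith [sq_nonneg (E + Real.cos x), sq_nonneg (Real.sin x)]
      have h7 : 2 * (Real.cosh (Real.pi * y) + Real.cos x) = (E ^ 2 + 2 * Real.cos x * E + 1) / E := by
        rw [Real.cosh_eq, hEn]
        field_simp
        ring
      rw [kk, h7]
      field_simp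
    rw [h5]
    have h8 : 1 + ((E + Real.cos x) / Real.sin x) ^ 2 = (E ^ 2 + 2 * Real.cos x * E + 1) / Real.sin x ^ 2 := by
      rw [eq_div_iff (by positivity), add_mul, div_pow, div_mul_cancel₀ _ (by positivity)]
      nlinarith
    rw [h8]
    have h6 : 0 < E ^ 2 + 2 * Real.cos x * E + 1 := by nlinarith [sq_nonneg (E + Real.cos x), sq_nonneg (Real.sin x)]
    field_simp
  have hbot : Tendsto (fun y => (1 / Real.pi) * Real.arctan ((Real.exp (Real.pi * y) + Real.cos x) / Real.sin x)) atBot
      (𝓝 ((1 / Real.pi) * (Real.pi / 2 - x))) := by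
    have h1 : Tendsto (fun y : ℝ => Real.exp (Real.pi * y)) atBot (𝓝 0) :=
      Real.tendsto_exp_atBot.comp (tendsto_id.const_mul_atBot hpi)
    have h2 : Tendsto (fun y => (Real.exp (Real.pi * y) + Real.cos x) / Real.sin x) atBot
        (𝓝 ((0 + Real.cos x) / Real.sin x)) := (h1.add_const _).div_const _
    have h3 : Real.arctan ((0 + Real.cos x) / Real.sin x) = Real.pi / 2 - x := by
      have h4 : (0 + Real.cos x) / Real.sin x = Real.tan (Real.pi / 2 - x) := by
        rw [Real.tan_pi_div_two_sub, Real.tan_eq_sin_div_cos, inv_div, zero_add]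
      rw [h4, Real.arctan_tan (by linarith) (by linarith)]
    rw [← h3]
    exact ((Real.continuous_arctan.tendsto _).comp h2).const_mul _
  have htop : Tendsto (fun y => (1 / Real.pi) * Real.arctan ((Real.exp (Real.pi * y) + Real.cos x) / Real.sin x)) atTop
      (𝓝 ((1 / Real.pi) * (Real.pi / 2))) := by
    have h1 : Tendsto (fun y : ℝ => Real.exp (Real.pi * y)) atTop atTop :=
      Real.tendsto_exp_atTop.comp (tendsto_id.const_mul_atTop hpi)
    have h2 : Tendsto (fun y => (Real.exp (Real.pi * y) + Real.cos x) / Real.sin x) atTop atTop :=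
      (tendsto_atTop_add_const_right _ _ h1).atTop_div_const hs
    exact ((tendsto_nhds_of_tendsto_nhdsWithin Real.tendsto_arctan_atTop).comp h2).const_mul _
  rw [integral_of_hasDerivAt_of_tendsto hder (kk_int0 hs.le hc) hbot htop]
  field_simp
  ring

end Pool.Agent.H61.PB
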