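import Pool.Agent.H61.PB.KRN0

/-!
Project PB, stub POI: the formula of Poisson for the strip.
-/

set_option autoImplicit false

open MeasureTheory Filter Topology Complex

namespace Pool.Agent.H61.PB

/-- the closed strip -/
def CS : Set ℂ := {z : ℂ | 0 ≤ z.re ∧ z.re ≤ 1}

lemma strip_closure : closure {z : ℂ | 0 < z.re ∧ z.re < 1} = CS := by
  have h1 : {z : ℂ | 0 < z.re ∧ z.re < 1} = Set.Ioo (0 : ℝ) 1 ×ℂ Set.univ := by
    ext z
    simp [Complex.mem_reProdIm]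
  rw [h1, Complex.closure_reProdIm, closure_Ioo (by norm_num), closure_univ]
  ext z
  simp [Complex.mem_reProdIm, CS]

lemma strip_open : IsOpen {z : ℂ | 0 < z.re ∧ z.re < 1} :=
  (isOpen_lt continuous_const Complex.continuous_re).inter (isOpen_lt Complex.continuous_re continuous_const)

variable {θ : ℝ}

/-- `cos (π z)` -/
noncomputable def cc (z : ℂ) : ℂ := Complex.cos ((Real.pi : ℂ) * z)

lemma cc_deriv (z : ℂ) : HasDerivAt cc (-Complex.sin ((Real.pi : ℂ) * z) * Real.pi) z := by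
  have h1 : HasDerivAt (fun z : ℂ => (Real.pi : ℂ) * z) (Real.pi : ℂ) z := by
    simpa using (hasDerivAt_id z).const_mul (Real.pi : ℂ)
  exact h1.ccos

lemma cc_diff : Differentiable ℂ cc := fun z => (cc_deriv z).differentiableAt

lemma cc_theta : cc (θ : ℂ) = (Real.cos (Real.pi * θ) : ℂ) := by
  unfold cc
  push_cast
  rfl

lemma cc_ne (h0 : 0 < θ) (h1 : θ < 1) {z : ℂ} (hz : z ∈ CS) (hne : z ≠ θ) : cc z ≠ cc θ := by
  intro h
  obtain ⟨k, hk⟩ := Complex.cos_eq_cos_iff.1 h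
  have hpi : (Real.pi : ℂ) ≠ 0 := by exact_mod_cast Real.pi_ne_zero
  obtain ⟨hz0, hz1⟩ := hz
  rcases hk with hk | hk
  · have h2 : (θ : ℂ) = 2 * k + z := by
      apply mul_left_cancel₀ hpi
      rw [hk]
      ring
    have h3 : θ = 2 * k + z.re := by
      have := congrArg Complex.re h2
      simpa using this
    have h4 : (k : ℝ) < 1 := by linarith
    have h5 : (-1 : ℝ) < k := by linarith
    have h6 : k = 0 := by
      have h4' : k < 1 := by exact_mod_cast h4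
      have h5' : -1 < k := by exact_mod_cast h5
      omega
    rw [h6] at h2
    apply hne
    rw [h2]
    simp
  · have h2 : (θ : ℂ) = 2 * k - z := by
      apply mul_left_cancel₀ hpi
      rw [hk]
      ring
    have h3 : θ = 2 * k - z.re := by
      have := congrArg Complex.re h2
      simpa using this
    have h4 : (k : ℝ) < 1 := by linarith
    have h5 : (0 : ℝ) < k := by linarith
    have h4' : k < 1 := by exact_mod_cast h4
    have h5' : 0 < k := by exact_mod_cast h5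
    omega

/-- the function to be integrated -/
noncomputable def ff (θ : ℝ) (h : ℂ → ℂ) (z : ℂ) : ℂ :=
  -((Real.sin (Real.pi * θ) : ℝ) : ℂ) * (dslope h θ z / dslope cc θ z)

lemma sin_ne (h0 : 0 < θ) (h1 : θ < 1) : 0 < Real.sin (Real.pi * θ) :=
  Real.sin_pos_of_pos_of_lt_pi (by have := Real.pi_pos; positivity) (by nlinarith [Real.pi_pos])

lemma dcc_ne (h0 : 0 < θ) (h1 : θ < 1) {z : ℂ} (hz : z ∈ CS) : dslope cc θ z ≠ 0 := by
  by_cases hne : z = θ
  · rw [hne, dslope_same, (cc_deriv _).deriv]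
    have h2 : Complex.sin ((Real.pi : ℂ) * θ) = ((Real.sin (Real.pi * θ) : ℝ) : ℂ) := by push_cast; rfl
    rw [h2]
    have h3 := (sin_ne h0 h1).ne'
    have h4 : (Real.pi : ℂ) ≠ 0 := by exact_mod_cast Real.pi_ne_zero
    have h5 : ((Real.sin (Real.pi * θ) : ℝ) : ℂ) ≠ 0 := by exact_mod_cast h3
    exact mul_ne_zero (neg_ne_zero.2 h5) h4
  · rw [dslope_of_ne _ hne, slope_def_field]
    exact div_ne_zero (sub_ne_zero.2 (cc_ne h0 h1 hz hne)) (sub_ne_zero.2 hne)

lemma ff_eq {h : ℂ → ℂ} {z : ℂ} (hne : z ≠ θ) :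
    ff θ h z = ((Real.sin (Real.pi * θ) : ℝ) : ℂ) / (cc θ - cc z) * (h z - h θ) := by
  have h1 : z - θ ≠ 0 := sub_ne_zero.2 hne
  rw [ff, dslope_of_ne _ hne, dslope_of_ne _ hne, slope_def_field, slope_def_field, div_div_div_cancel_right₀ h1,
    ← neg_sub (cc z) (cc θ), div_neg]
  ring

section

variable {h : ℂ → ℂ}

lemma theta_mem (h0 : 0 < θ) (h1 : θ < 1) : (θ : ℂ) ∈ {z : ℂ | 0 < z.re ∧ z.re < 1} := by
  constructor <;> simpa

lemma cs_nhds (h0 : 0 < θ) (h1 : θ < 1) : CS ∈ 𝓝 (θ : ℂ) :=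
  Filter.mem_of_superset (strip_open.mem_nhds (theta_mem h0 h1)) fun _ hz => ⟨hz.1.le, hz.2.le⟩

lemma ff_cont (h0 : 0 < θ) (h1 : θ < 1) (hd : DiffContOnCl ℂ h {z : ℂ | 0 < z.re ∧ z.re < 1}) :
    ContinuousOn (ff θ h) CS := by
  have h2 : ContinuousOn (dslope h θ) CS := by
    rw [continuousOn_dslope (cs_nhds h0 h1)]
    refine ⟨?_, hd.differentiableAt strip_open (theta_mem h0 h1)⟩
    have := hd.continuousOn
    rwa [strip_closure] at this
  have h3 : ContinuousOn (dslope cc θ) CS := by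
    rw [continuousOn_dslope (cs_nhds h0 h1)]
    exact ⟨cc_diff.continuous.continuousOn, cc_diff _⟩
  exact continuousOn_const.mul (h2.div h3 fun z hz => dcc_ne h0 h1 hz)

lemma ff_diff (h0 : 0 < θ) (h1 : θ < 1) (hd : DiffContOnCl ℂ h {z : ℂ | 0 < z.re ∧ z.re < 1}) {z : ℂ}
    (hz : z ∈ {z : ℂ | 0 < z.re ∧ z.re < 1}) (hne : z ≠ θ) : DifferentiableAt ℂ (ff θ h) z := by
  have h2 : DifferentiableAt ℂ (dslope h θ) z :=
    (differentiableAt_dslope_of_ne hne).2 (hd.differentiableAt strip_open hz)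
  have h3 : DifferentiableAt ℂ (dslope cc θ) z := (differentiableAt_dslope_of_ne hne).2 (cc_diff _)
  exact (h2.div h3 (dcc_ne h0 h1 ⟨hz.1.le, hz.2.le⟩)).const_mul _

lemma cc_right (y : ℝ) : cc (1 + (y : ℂ) * I) = -((Real.cosh (Real.pi * y) : ℝ) : ℂ) := by
  have h1 : (Real.pi : ℂ) * (1 + (y : ℂ) * I) = ((Real.pi * y : ℝ) : ℂ) * I + Real.pi := by
    push_cast
    ring
  rw [cc, h1, Complex.cos_add_pi, Complex.cos_mul_I, Complex.ofReal_cosh]

lemma cc_left (y : ℝ) : cc ((y : ℂ) * I) = ((Real.cosh (Real.pi * y) : ℝ) : ℂ) := by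
  have h1 : (Real.pi : ℂ) * ((y : ℂ) * I) = ((Real.pi * y : ℝ) : ℂ) * I := by
    push_cast
    ring
  rw [cc, h1, Complex.cos_mul_I, Complex.ofReal_cosh]

lemma right_ne (h1 : θ < 1) (y : ℝ) : (1 + (y : ℂ) * I) ≠ (θ : ℂ) := by
  intro h
  have := congrArg Complex.re h
  simp at this
  linarith

lemma left_ne (h0 : 0 < θ) (y : ℝ) : ((y : ℂ) * I) ≠ (θ : ℂ) := by
  intro h
  have := congrArg Complex.re h
  simp at this
  linarith

lemma ff_right (h1 : θ < 1) (y : ℝ) : ff θ h (1 + (y : ℂ) * I) =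
    2 * ((kk (Real.sin (Real.pi * θ)) (Real.cos (Real.pi * θ)) y : ℝ) * (h (1 + (y : ℂ) * I) - h θ)) := by
  rw [ff_eq (right_ne h1 y), cc_right, cc_theta, kk, ← mul_assoc]
  congr 1
  push_cast
  rw [sub_neg_eq_add, add_comm (Complex.cos _), ← mul_div_assoc, mul_div_mul_left _ _ (two_ne_zero)]

lemma ff_left (h0 : 0 < θ) (y : ℝ) : ff θ h ((y : ℂ) * I) =
    -(2 * ((kk (Real.sin (Real.pi * θ)) (-Real.cos (Real.pi * θ)) y : ℝ) * (h ((y : ℂ) * I) - h θ))) := by
  rw [ff_eq (left_ne h0 y), cc_left, cc_theta, kk, ← mul_assoc, ← neg_mul]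
  congr 1
  push_cast
  rw [← mul_div_assoc, mul_div_mul_left _ _ (two_ne_zero), ← sub_eq_add_neg, ← div_neg, neg_sub]

lemma cos_norm (x y : ℝ) : Real.sinh y ≤ ‖Complex.cos ((x : ℂ) + (y : ℂ) * I)‖ := by
  have h1 : Complex.cos ((x : ℂ) + (y : ℂ) * I) =
      ((Real.cos x * Real.cosh y : ℝ) : ℂ) + ((-(Real.sin x * Real.sinh y) : ℝ) : ℂ) * I := by
    rw [Complex.cos_add, Complex.cos_mul_I, Complex.sin_mul_I]
    push_cast
    ring
  rw [h1, Complex.norm_add_mul_I]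
  apply Real.le_sqrt_of_sq_le
  have h2 := Real.sin_sq_add_cos_sq x
  have h3 := Real.cosh_sq y
  nlinarith [sq_nonneg (Real.cos x)]

lemma cos_norm' (x y : ℝ) : Real.sinh |y| ≤ ‖Complex.cos ((x : ℂ) + (y : ℂ) * I)‖ := by
  rcases abs_choice y with h | h
  · rw [h]
    exact cos_norm x y
  · rw [h]
    have h1 : Complex.cos ((x : ℂ) + (y : ℂ) * I) = Complex.cos (((-x : ℝ) : ℂ) + ((-y : ℝ) : ℂ) * I) := by
      rw [← Complex.cos_neg]
      congr 1
      push_cast
      ring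
    rw [h1]
    exact cos_norm (-x) (-y)

lemma sinh_low {x : ℝ} (hx : 3 ≤ x) : Real.exp x / 4 ≤ Real.sinh x - 1 := by
  have h1 : (8 : ℝ) ≤ Real.exp x := by
    have h2 : (2 : ℝ) ≤ Real.exp 1 := by
      have := Real.add_one_le_exp (1 : ℝ)
      linarith
    have h3 : Real.exp 3 = Real.exp 1 ^ 3 := by
      rw [← Real.exp_nat_mul]
      norm_num
    have h4 : (8 : ℝ) ≤ Real.exp 3 := by
      rw [h3]
      calc (8 : ℝ) = 2 ^ 3 := by norm_num
        _ ≤ Real.exp 1 ^ 3 := pow_le_pow_left₀ (by norm_num) h2 3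
    exact h4.trans (Real.exp_le_exp.2 hx)
  have h5 : Real.exp (-x) ≤ 1 := Real.exp_le_one_iff.2 (by linarith)
  rw [Real.sinh_eq]
  linarith

lemma ff_hor (h0 : 0 < θ) (h1 : θ < 1) {k : ℕ} {C : ℝ}
    (hb : ∀ z : ℂ, 0 ≤ z.re → z.re ≤ 1 → ‖h z‖ ≤ C * (1 + |z.im|) ^ k) {z : ℂ} (hz : z ∈ CS) (hz1 : 1 ≤ |z.im|) :
    ‖ff θ h z‖ ≤ 8 * |C| * ((k + 2).factorial * Real.exp 1) * (1 + z.im ^ 2)⁻¹ := by
  have hne : z ≠ θ := by
    intro h2
    rw [h2] at hz1
    simp at hz1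
    linarith
  rw [ff_eq hne, norm_mul, norm_div]
  have hs : ‖((Real.sin (Real.pi * θ) : ℝ) : ℂ)‖ ≤ 1 := by
    rw [Complex.norm_real]
    exact Real.abs_sin_le_one _
  have hden : Real.exp (Real.pi * |z.im|) / 4 ≤ ‖cc θ - cc z‖ := by
    have h2 : Real.sinh (Real.pi * |z.im|) ≤ ‖cc z‖ := by
      have h3 : (Real.pi : ℂ) * z = ((Real.pi * z.re : ℝ) : ℂ) + ((Real.pi * z.im : ℝ) : ℂ) * I := by
        apply Complex.ext <;> simp
      rw [cc, h3]
      have h4 : Real.pi * |z.im| = |Real.pi * z.im| := by rw [abs_mul, abs_of_pos Real.pi_pos]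
      rw [h4]
      exact cos_norm' _ _
    have h5 : ‖cc θ‖ ≤ 1 := by
      rw [cc_theta, Complex.norm_real]
      exact Real.abs_cos_le_one _
    have h6 : ‖cc z‖ - ‖cc θ‖ ≤ ‖cc θ - cc z‖ := by
      rw [norm_sub_rev]
      exact norm_sub_norm_le _ _
    have h7 := sinh_low (x := Real.pi * |z.im|) (by nlinarith [Real.pi_gt_three])
    linarith
  have hnum : ‖h z - h θ‖ ≤ 2 * (|C| * (1 + |z.im|) ^ k) := by
    have h2 : ‖h z‖ ≤ |C| * (1 + |z.im|) ^ k :=
      (hb z hz.1 hz.2).trans (mul_le_mul_of_nonneg_right (le_abs_self C) (by positivity))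
    have h3 : ‖h θ‖ ≤ |C| * (1 + |z.im|) ^ k := by
      have h4 := hb θ (by simpa using h0.le) (by simpa using h1.le)
      simp only [Complex.ofReal_im, abs_zero, add_zero, one_pow, mul_one] at h4
      refine h4.trans ((le_abs_self C).trans (le_mul_of_one_le_right (abs_nonneg C) ?_))
      exact one_le_pow₀ (by linarith [abs_nonneg z.im])
    calc ‖h z - h θ‖ ≤ ‖h z‖ + ‖h θ‖ := norm_sub_le _ _
      _ ≤ _ := by linarith
  have hE := Real.exp_pos (Real.pi * |z.im|)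
  have hdp : 0 < ‖cc θ - cc z‖ := lt_of_lt_of_le (by positivity) hden
  have h8 : ‖((Real.sin (Real.pi * θ) : ℝ) : ℂ)‖ / ‖cc θ - cc z‖ ≤ 4 * Real.exp (-(Real.pi * |z.im|)) := by
    rw [div_le_iff₀ hdp, Real.exp_neg]
    have h9 : 1 ≤ 4 * (Real.exp (Real.pi * |z.im|))⁻¹ * ‖cc θ - cc z‖ := by
      calc (1 : ℝ) = 4 * (Real.exp (Real.pi * |z.im|))⁻¹ * (Real.exp (Real.pi * |z.im|) / 4) := by
            field_simp
        _ ≤ _ := mul_le_mul_of_nonneg_left hden (by positivity)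
    exact hs.trans h9
  calc ‖((Real.sin (Real.pi * θ) : ℝ) : ℂ)‖ / ‖cc θ - cc z‖ * ‖h z - h θ‖
      ≤ 4 * Real.exp (-(Real.pi * |z.im|)) * (2 * (|C| * (1 + |z.im|) ^ k)) := by gcongr
    _ = 8 * |C| * ((1 + |z.im|) ^ k * Real.exp (-(Real.pi * |z.im|))) := by ring
    _ ≤ 8 * |C| * ((k + 2).factorial * Real.exp 1 * (1 + z.im ^ 2)⁻¹) :=
        mul_le_mul_of_nonneg_left (pow_bound k z.im) (by positivity)
    _ = _ := by ring

/-- **Poisson's formula** -/
theorem poi (h0 : 0 < θ) (h1 : θ < 1) (k : ℕ) (C : ℝ) (hd : DiffContOnCl ℂ h {z : ℂ | 0 < z.re ∧ z.re < 1})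
    (hb : ∀ z : ℂ, 0 ≤ z.re → z.re ≤ 1 → ‖h z‖ ≤ C * (1 + |z.im|) ^ k) :
    h (θ : ℂ) = (∫ y : ℝ, (kk (Real.sin (Real.pi * θ)) (-Real.cos (Real.pi * θ)) y : ℂ) * h ((y : ℂ) * I)) +
      ∫ y : ℝ, (kk (Real.sin (Real.pi * θ)) (Real.cos (Real.pi * θ)) y : ℂ) * h (1 + (y : ℂ) * I) := by
  have hpi := Real.pi_pos
  have hs := sin_ne h0 h1
  have hc : |Real.cos (Real.pi * θ)| < 1 := by
    have h2 := Real.sin_sq_add_cos_sq (Real.pi * θ)
    rw [abs_lt]
    constructor <;> nlinarith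
  have hc' : |-Real.cos (Real.pi * θ)| < 1 := by rwa [abs_neg]
  have hcl : ContinuousOn h CS := by
    have := hd.continuousOn
    rwa [strip_closure] at this
  have hcr : Continuous fun y : ℝ => h (1 + (y : ℂ) * I) :=
    hcl.comp_continuous (by fun_prop) fun y => by constructor <;> simp
  have hcl' : Continuous fun y : ℝ => h ((y : ℂ) * I) :=
    hcl.comp_continuous (by fun_prop) fun y => by constructor <;> simp
  have hint : ∀ (c : ℝ), |c| < 1 → ∀ u : ℝ → ℂ, Continuous u → (∀ y, ‖u y‖ ≤ C * (1 + |y|) ^ k) →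
      Integrable fun y : ℝ => (kk (Real.sin (Real.pi * θ)) c y : ℂ) * u y := by
    intro c hcc u hu hub
    have hc1 : -1 < c := by
      have := (abs_lt.1 hcc).1
      linarith
    refine Integrable.mono' ((kk_int hs.le hcc k).norm.const_mul |C|) ?_ ?_
    · exact ((Complex.continuous_ofReal.comp (kk_cont _ hc1)).mul hu).aestronglyMeasurable
    · refine Eventually.of_forall fun y => ?_
      rw [norm_mul, Complex.norm_real, norm_mul, norm_pow]
      have h2 : ‖u y‖ ≤ |C| * (1 + |y|) ^ k :=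
        (hub y).trans (mul_le_mul_of_nonneg_right (le_abs_self C) (by positivity))
      have h3 : ‖1 + |y|‖ = 1 + |y| := by
        rw [Real.norm_eq_abs, abs_of_pos (by positivity)]
      rw [h3]
      calc ‖kk (Real.sin (Real.pi * θ)) c y‖ * ‖u y‖ ≤ ‖kk (Real.sin (Real.pi * θ)) c y‖ * (|C| * (1 + |y|) ^ k) :=
            mul_le_mul_of_nonneg_left h2 (norm_nonneg _)
        _ = _ := by ring
  have hI1 := hint _ hc _ hcr fun y => by
    have := hb (1 + (y : ℂ) * I) (by simp) (by simp)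
    simpa using this
  have hI0 := hint _ hc' _ hcl' fun y => by
    have := hb ((y : ℂ) * I) (by simp) (by simp)
    simpa using this
  have hm1 : Integrable fun y : ℝ => (kk (Real.sin (Real.pi * θ)) (Real.cos (Real.pi * θ)) y : ℂ) * h θ :=
    (kk_int0 hs.le hc).ofReal.mul_const _
  have hm0 : Integrable fun y : ℝ => (kk (Real.sin (Real.pi * θ)) (-Real.cos (Real.pi * θ)) y : ℂ) * h θ :=
    (kk_int0 hs.le hc').ofReal.mul_const _
  have hv1 : ∫ y : ℝ, (kk (Real.sin (Real.pi * θ)) (Real.cos (Real.pi * θ)) y : ℂ) = (θ : ℂ) := by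
    have h2 := kk_mass (x := Real.pi * θ) (by positivity) (by nlinarith)
    rw [integral_complex_ofReal, h2]
    congr 1
    field_simp
  have hv0 : ∫ y : ℝ, (kk (Real.sin (Real.pi * θ)) (-Real.cos (Real.pi * θ)) y : ℂ) = ((1 - θ : ℝ) : ℂ) := by
    have h2 := kk_mass (x := Real.pi - Real.pi * θ) (by nlinarith) (by nlinarith)
    rw [Real.sin_pi_sub, Real.cos_pi_sub] at h2
    rw [integral_complex_ofReal, h2]
    congr 1
    field_simp
  -- the two limits
  have hA : Tendsto (fun N : ℕ => ∫ y in (-(N : ℝ))..(N : ℝ), ff θ h (1 + (y : ℂ) * I)) atTop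
      (𝓝 (∫ y : ℝ, ff θ h (1 + (y : ℂ) * I))) := by
    refine intervalIntegral_tendsto_integral ?_ (tendsto_neg_atTop_atBot.comp tendsto_natCast_atTop_atTop)
      tendsto_natCast_atTop_atTop
    have h2 := (hI1.sub hm1).const_mul 2
    refine h2.congr (Eventually.of_forall fun y => ?_)
    simp only [Pi.sub_apply]
    rw [ff_right h1 y]
    ring
  have hB : Tendsto (fun N : ℕ => ∫ y in (-(N : ℝ))..(N : ℝ), ff θ h ((y : ℂ) * I)) atTop
      (𝓝 (∫ y : ℝ, ff θ h ((y : ℂ) * I))) := by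
    refine intervalIntegral_tendsto_integral ?_ (tendsto_neg_atTop_atBot.comp tendsto_natCast_atTop_atTop)
      tendsto_natCast_atTop_atTop
    have h2 := (hI0.sub hm0).const_mul (-2)
    refine h2.congr (Eventually.of_forall fun y => ?_)
    simp only [Pi.sub_apply]
    rw [ff_left h0 y]
    ring
  -- the horizontal sides
  set M : ℝ := 8 * |C| * ((k + 2).factorial * Real.exp 1) with hM
  have hM0 : 0 ≤ M := by positivity
  have hhor : ∀ N : ℝ, 1 ≤ |N| → ‖∫ x in (0 : ℝ)..1, ff θ h ((x : ℂ) + (N : ℂ) * I)‖ ≤ M * (1 + N ^ 2)⁻¹ := by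
    intro N hN
    have h2 := intervalIntegral.norm_integral_le_of_norm_le_const (a := (0 : ℝ)) (b := 1)
      (f := fun x : ℝ => ff θ h ((x : ℂ) + (N : ℂ) * I)) (C := M * (1 + N ^ 2)⁻¹) (by
        intro x hx
        rw [Set.uIoc_of_le zero_le_one] at hx
        have h3 := ff_hor h0 h1 hb (z := (x : ℂ) + (N : ℂ) * I) ⟨by simpa using hx.1.le, by simpa using hx.2⟩
          (by simpa using hN)
        simpa using h3)
    simpa using h2
  have hdec : Tendsto (fun N : ℕ => M * (1 + (N : ℝ) ^ 2)⁻¹) atTop (𝓝 0) := by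
    have h2 : Tendsto (fun N : ℕ => (1 + (N : ℝ) ^ 2)) atTop atTop :=
      tendsto_atTop_add_const_left _ _ ((tendsto_pow_atTop two_ne_zero).comp tendsto_natCast_atTop_atTop)
    have h3 := h2.inv_tendsto_atTop.const_mul M
    rwa [mul_zero] at h3
  have hrect : ∀ N : ℕ, 1 ≤ N →
      ‖(∫ y in (-(N : ℝ))..(N : ℝ), ff θ h (1 + (y : ℂ) * I)) - ∫ y in (-(N : ℝ))..(N : ℝ), ff θ h ((y : ℂ) * I)‖ ≤
        2 * (M * (1 + (N : ℝ) ^ 2)⁻¹) := by
    intro N hN
    have hNr : (1 : ℝ) ≤ N := by exact_mod_cast hN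
    have key := Complex.integral_boundary_rect_eq_zero_of_differentiable_on_off_countable (ff θ h)
      (((-(N : ℝ) : ℝ) : ℂ) * I) (1 + ((N : ℝ) : ℂ) * I) {(θ : ℂ)} (Set.countable_singleton _) (by
        refine (ff_cont h0 h1 hd).mono ?_
        rintro z ⟨hz1, hz2⟩
        simp only [Complex.mul_re, Complex.ofReal_re, Complex.I_re, mul_zero, Complex.ofReal_im, Complex.I_im,
          mul_one, sub_self, Complex.add_re, Complex.one_re, add_zero, Set.mem_preimage] at hz1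
        rw [Set.uIcc_of_le zero_le_one] at hz1
        exact ⟨hz1.1, hz1.2⟩) (by
        rintro z ⟨⟨hz1, hz2⟩, hz3⟩
        simp only [Complex.mul_re, Complex.ofReal_re, Complex.I_re, mul_zero, Complex.ofReal_im, Complex.I_im,
          mul_one, sub_self, Complex.add_re, Complex.one_re, add_zero, Set.mem_preimage] at hz1
        rw [min_eq_left zero_le_one, max_eq_right zero_le_one] at hz1
        exact ff_diff h0 h1 hd ⟨hz1.1, hz1.2⟩ hz3)
    simp only [Complex.mul_re, Complex.ofReal_re, Complex.I_re, mul_zero, Complex.ofReal_im, Complex.I_im,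
      mul_one, sub_self, Complex.add_re, Complex.one_re, add_zero, Complex.mul_im, zero_add, Complex.add_im,
      Complex.one_im, Complex.ofReal_zero, Complex.ofReal_one, smul_eq_mul] at key
    have h2 := hhor (-(N : ℝ)) (by rw [abs_neg, abs_of_nonneg (by linarith)]; exact hNr)
    have h3 := hhor (N : ℝ) (by rw [abs_of_nonneg (by linarith)]; exact hNr)
    rw [neg_sq] at h2
    set A := ∫ y in (-(N : ℝ))..(N : ℝ), ff θ h (1 + (y : ℂ) * I) with hAd
    set B := ∫ y in (-(N : ℝ))..(N : ℝ), ff θ h ((y : ℂ) * I) with hBd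
    set P := ∫ x in (0 : ℝ)..1, ff θ h ((x : ℂ) + ((-(N : ℝ) : ℝ) : ℂ) * I) with hPd
    set Q := ∫ x in (0 : ℝ)..1, ff θ h ((x : ℂ) + ((N : ℝ) : ℂ) * I) with hQd
    have h4 : I * (A - B) = Q - P := by linear_combination key
    have h5 : ‖A - B‖ = ‖Q - P‖ := by
      rw [← h4, norm_mul, Complex.norm_I, one_mul]
    rw [h5]
    calc ‖Q - P‖ ≤ ‖Q‖ + ‖P‖ := norm_sub_le _ _
      _ ≤ _ := by linarith
  have hAB : (∫ y : ℝ, ff θ h (1 + (y : ℂ) * I)) - ∫ y : ℝ, ff θ h ((y : ℂ) * I) = 0 := by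
    have h2 := hA.sub hB
    have h3 : Tendsto (fun N : ℕ => (∫ y in (-(N : ℝ))..(N : ℝ), ff θ h (1 + (y : ℂ) * I)) -
        ∫ y in (-(N : ℝ))..(N : ℝ), ff θ h ((y : ℂ) * I)) atTop (𝓝 0) := by
      have h4 := hdec.const_mul 2
      rw [mul_zero] at h4
      refine squeeze_zero_norm' ?_ h4
      filter_upwards [eventually_ge_atTop 1] with N hN using hrect N hN
    exact tendsto_nhds_unique h2 h3
  have hA' : (∫ y : ℝ, ff θ h (1 + (y : ℂ) * I)) =
      2 * ((∫ y : ℝ, (kk (Real.sin (Real.pi * θ)) (Real.cos (Real.pi * θ)) y : ℂ) * h (1 + (y : ℂ) * I)) - θ * h θ) := by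
    have e1 : ∫ y : ℝ, (kk (Real.sin (Real.pi * θ)) (Real.cos (Real.pi * θ)) y : ℂ) * h θ = θ * h θ := by
      rw [integral_mul_const, hv1]
    rw [← e1, ← integral_sub hI1 hm1, ← integral_const_mul]
    refine integral_congr_ae (Eventually.of_forall fun y => ?_)
    simp only []
    rw [ff_right h1 y]
    ring
  have hB' : (∫ y : ℝ, ff θ h ((y : ℂ) * I)) =
      -(2 * ((∫ y : ℝ, (kk (Real.sin (Real.pi * θ)) (-Real.cos (Real.pi * θ)) y : ℂ) * h ((y : ℂ) * I)) -
        ((1 - θ : ℝ) : ℂ) * h θ)) := by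
    have e1 : ∫ y : ℝ, (kk (Real.sin (Real.pi * θ)) (-Real.cos (Real.pi * θ)) y : ℂ) * h θ =
        ((1 - θ : ℝ) : ℂ) * h θ := by
      rw [integral_mul_const, hv0]
    rw [← e1, ← integral_sub hI0 hm0, ← integral_const_mul, ← integral_neg]
    refine integral_congr_ae (Eventually.of_forall fun y => ?_)
    simp only []
    rw [ff_left h0 y]
    ring
  rw [hA', hB'] at hAB
  push_cast at hAB
  linear_combination (-1 / 2 : ℂ) * hAB

end

end Pool.Agent.H61.PB
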